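import Mathlib

set_option autoImplicit false

/-!
# The LOCAL complexity of LCL problems on classes of bounded degree and subexponential growth

`F` is the class of the disjoint unions of `2 ^ k` paths with `2 k + 1` vertices, `k = 0, 1, …`. Its
graphs have maximum degree `2` and balls of radius `r` have at most `2 r + 1` vertices. Proper
2-colouring has randomized LOCAL complexity `O (log n)` on `F` (even without the random bits), but its
deterministic complexity is at least `k / 2` for `n = (2 k + 1) 2 ^ k`, so it is not `O (log* n)`.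
-/

namespace Pool.Agent.Results.MP_e442af_lc.LogarithmicPaths

open Filter Asymptotics MeasureTheory

/-- there is a walk of length `j` from `v` to `u` -/
def Reach {n : ℕ} (G : SimpleGraph (Fin n)) (v : Fin n) : ℕ → Fin n → Prop
  | 0, u => u = v
  | j + 1, u => ∃ x, Reach G v j x ∧ G.Adj x u

/-- the ball `B_G (v, r)` -/
def ball {n : ℕ} (G : SimpleGraph (Fin n)) (v : Fin n) (r : ℕ) : Set (Fin n) :=
  {u | ∃ j ≤ r, Reach G v j u}

/-- The labelled balls `B_G (v, r)` and `B_H (w, r)` (induced subgraphs with roots and labels) are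
isomorphic. -/
def SameBall {L : Type} {n m : ℕ} (G : SimpleGraph (Fin n)) (a : Fin n → L) (v : Fin n)
    (H : SimpleGraph (Fin m)) (b : Fin m → L) (w : Fin m) (r : ℕ) : Prop :=
  ∃ e : Fin n → Fin m, Set.BijOn e (ball G v r) (ball H w r) ∧ e v = w ∧
    (∀ x ∈ ball G v r, ∀ y ∈ ball G v r, G.Adj x y ↔ H.Adj (e x) (e y)) ∧
    ∀ x ∈ ball G v r, a x = b (e x)

/-- a class of finite graphs -/
abbrev GraphClass : Type := (n : ℕ) → Set (SimpleGraph (Fin n))

/-- bounded degree and subexponential growth -/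
def Subexponential (F : GraphClass) : Prop :=
  ∃ (Δ : ℕ) (f : ℕ → ℕ), Tendsto (fun r : ℕ => Real.log (f r) / r) atTop (nhds 0) ∧
    ∀ (n : ℕ) (G : SimpleGraph (Fin n)), G ∈ F n → ∀ v : Fin n,
      {u | G.Adj v u}.ncard ≤ Δ ∧ ∀ r : ℕ, (ball G v r).ncard ≤ f r

/-- A LOCAL algorithm of complexity `t` with labels in `L` and outputs in `S`: it knows `n`, and the
output of `v` is a function of the labelled ball of radius `t n`. For `L = ℕ` the labels are the
identifiers, for `L = ℕ → Bool` the random bit strings. -/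
structure Algorithm (L S : Type) (t : ℕ → ℕ) where
  /-- the output -/
  out : (n : ℕ) → SimpleGraph (Fin n) → (Fin n → L) → Fin n → S
  isLocal : ∀ (n : ℕ) (G H : SimpleGraph (Fin n)) (a b : Fin n → L) (v w : Fin n),
    SameBall G a v H b w (t n) → out n G a v = out n H b w

/-- An LCL problem: a finite alphabet, a radius, and a set of allowed labelled balls. -/
structure LCL where
  /-- the alphabet -/
  S : Type
  fin : Finite S
  /-- the radius -/
  r : ℕ
  /-- the ball around the vertex is allowed -/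
  allowed : (n : ℕ) → SimpleGraph (Fin n) → (Fin n → S) → Fin n → Prop
  isLocal : ∀ (n m : ℕ) (G : SimpleGraph (Fin n)) (H : SimpleGraph (Fin m)) (a : Fin n → S)
    (b : Fin m → S) (v : Fin n) (w : Fin m), SameBall G a v H b w r →
    (allowed n G a v ↔ allowed m H b w)

/-- solutions -/
def LCL.Solution (P : LCL) {n : ℕ} (G : SimpleGraph (Fin n)) (a : Fin n → P.S) : Prop :=
  ∀ v, P.allowed n G a v

/-- `P` is solved on `F` by a deterministic algorithm of complexity `t`, for all injective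
identifiers in `{1, …, n ^ c}` -/
def SolvesDet (F : GraphClass) (P : LCL) (c : ℕ) (t : ℕ → ℕ) : Prop :=
  ∃ A : Algorithm ℕ P.S t, ∀ (n : ℕ) (G : SimpleGraph (Fin n)), G ∈ F n → ∀ id : Fin n → ℕ,
    Function.Injective id → (∀ v, 1 ≤ id v ∧ id v ≤ n ^ c) → P.Solution G (A.out n G id)

/-- independent uniformly random infinite bit strings -/
noncomputable def coins (n : ℕ) : Measure (Fin n → (ℕ → Bool)) :=
  Measure.pi fun _ => Measure.infinitePi fun _ => (PMF.uniformOfFintype Bool).toMeasure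

/-- `P` is solved on `F` by a randomized algorithm of complexity `t` with probability at least
`1 - n ^ (-d)` -/
def SolvesRand (F : GraphClass) (P : LCL) (d : ℝ) (t : ℕ → ℕ) : Prop :=
  ∃ A : Algorithm (ℕ → Bool) P.S t, ∀ (n : ℕ) (G : SimpleGraph (Fin n)), G ∈ F n →
    1 - (n : ℝ) ^ (-d) ≤ (coins n).real {ω | P.Solution G (A.out n G ω)}

/-- the iterated logarithm -/
def logStar (n : ℕ) : ℕ := if h : n ≤ 1 then 0 else 1 + logStar (Nat.log 2 n)
termination_by n
decreasing_by exact Nat.log_lt_self 2 (by omega)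

/-! ### The class -/

/-- the disjoint union of the paths on the intervals `[i L, (i + 1) L)` -/
def blocks (L n : ℕ) : SimpleGraph (Fin n) where
  Adj x y := ((x : ℕ) + 1 = y ∧ ¬ L ∣ (y : ℕ)) ∨ ((y : ℕ) + 1 = x ∧ ¬ L ∣ (x : ℕ))
  symm := ⟨fun _ _ h => h.symm⟩
  loopless := ⟨fun x h => by rcases h with h | h <;> omega⟩

/-- the disjoint unions of `2 ^ k` paths with `2 k + 1` vertices -/
def cls : GraphClass := fun n => {G | ∃ k : ℕ, n = (2 * k + 1) * 2 ^ k ∧
  ∃ σ : Equiv.Perm (Fin n), ∀ x y, G.Adj (σ x) (σ y) ↔ (blocks (2 * k + 1) n).Adj x y}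

/-- proper 2-colouring -/
def colouring : LCL where
  S := Bool
  fin := inferInstance
  r := 1
  allowed := fun n G a v => ∀ u, G.Adj v u → a u ≠ a v
  isLocal := by
    rintro n m G H a b v w ⟨e, he, hv, hadj, hlab⟩
    have hvb : v ∈ ball G v 1 := ⟨0, by omega, rfl⟩
    have h1 : ∀ u, G.Adj v u → u ∈ ball G v 1 := fun u hu => ⟨1, le_rfl, v, rfl, hu⟩
    have h2 : ∀ u, H.Adj w u → u ∈ ball H w 1 := fun u hu => ⟨1, le_rfl, w, rfl, hu⟩
    constructor
    · intro h u hu
      obtain ⟨x, hx, rfl⟩ := he.surjOn (h2 u hu)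
      rw [← hv, ← hadj v hvb x hx] at hu
      have := h x hu
      rwa [hlab x hx, hlab v hvb, hv] at this
    · intro h u hu
      have hu' := (hadj v hvb u (h1 u hu)).1 hu
      rw [hv] at hu'
      have := h _ hu'
      rwa [hlab u (h1 u hu), hlab v hvb, hv]

/-! ### The upper bound -/

/-- some vertex with at most one neighbour can be reached by an even walk of length `< t` -/
def EvenEnd {n : ℕ} (t : ℕ) (G : SimpleGraph (Fin n)) (v : Fin n) : Prop :=
  ∃ j u, j < t ∧ Even j ∧ Reach G v j u ∧ ∀ x y, G.Adj u x → G.Adj u y → x = y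

lemma reach_transfer {L : Type} {n m : ℕ} {G : SimpleGraph (Fin n)} {v : Fin n}
    {H : SimpleGraph (Fin m)} {w : Fin m} {r : ℕ} {e : Fin n → Fin m} (hv : e v = w)
    (hadj : ∀ x ∈ ball G v r, ∀ y ∈ ball G v r, G.Adj x y ↔ H.Adj (e x) (e y)) :
    ∀ (j : ℕ) (u : Fin n), j ≤ r → Reach G v j u → Reach H w j (e u) := by
  intro j
  induction j with
  | zero =>
    intro u _ h
    have h' : u = v := h
    rw [h']
    exact hv
  | succ j ih =>
    intro u hj h
    obtain ⟨x, hx, hxu⟩ := h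
    exact ⟨e x, ih x (by omega) hx, (hadj x ⟨j, by omega, hx⟩ u ⟨j + 1, hj, x, hx, hxu⟩).1 hxu⟩

lemma SameBall.symm {L : Type} {n m : ℕ} {G : SimpleGraph (Fin n)} {a : Fin n → L} {v : Fin n}
    {H : SimpleGraph (Fin m)} {b : Fin m → L} {w : Fin m} {r : ℕ} (h : SameBall G a v H b w r) :
    SameBall H b w G a v r := by
  obtain ⟨e, he, hv, hadj, hlab⟩ := h
  have : Nonempty (Fin n) := ⟨v⟩
  have h1 := he.invOn_invFunOn
  have h2 : Set.BijOn (Function.invFunOn e (ball G v r)) (ball H w r) (ball G v r) :=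
    (Set.bijOn_comm h1).2 he
  refine ⟨Function.invFunOn e (ball G v r), h2, ?_, ?_, ?_⟩
  · rw [← hv]
    exact h1.1 ⟨0, by omega, rfl⟩
  · intro x hx y hy
    rw [hadj _ (h2.mapsTo hx) _ (h2.mapsTo hy), h1.2 hx, h1.2 hy]
  · intro x hx
    rw [hlab _ (h2.mapsTo hx), h1.2 hx]

lemma evenEnd_of {L : Type} {n m : ℕ} {G : SimpleGraph (Fin n)} {a : Fin n → L} {v : Fin n}
    {H : SimpleGraph (Fin m)} {b : Fin m → L} {w : Fin m} {t : ℕ} (h : SameBall G a v H b w t)
    (hG : EvenEnd t G v) : EvenEnd t H w := by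
  obtain ⟨e, he, hv, hadj, -⟩ := h
  obtain ⟨j, u, hj, hev, hr, hu⟩ := hG
  refine ⟨j, e u, hj, hev, reach_transfer (L := L) hv hadj j u hj.le hr, fun x y hx hy => ?_⟩
  have hub : u ∈ ball G v t := ⟨j, hj.le, hr⟩
  have hur := reach_transfer (L := L) hv hadj j u hj.le hr
  have hxb : x ∈ ball H w t := ⟨j + 1, hj, e u, hur, hx⟩
  have hyb : y ∈ ball H w t := ⟨j + 1, hj, e u, hur, hy⟩
  obtain ⟨x', hx', rfl⟩ := he.surjOn hxb
  obtain ⟨y', hy', rfl⟩ := he.surjOn hyb
  rw [hu x' y' ((hadj u hub x' hx').2 hx) ((hadj u hub y' hy').2 hy)]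

open Classical in
/-- the algorithm -/
noncomputable def alg (L : Type) (t : ℕ → ℕ) : Algorithm L Bool t where
  out := fun n G _ v => decide (EvenEnd (t n) G v)
  isLocal := by
    intro n G H a b v w h
    rw [decide_eq_decide]
    exact ⟨evenEnd_of h, evenEnd_of h.symm⟩

lemma blocks_adj {L n : ℕ} {x y : Fin n} : (blocks L n).Adj x y ↔
    ((x : ℕ) + 1 = y ∧ ¬ L ∣ (y : ℕ)) ∨ ((y : ℕ) + 1 = x ∧ ¬ L ∣ (x : ℕ)) := Iff.rfl

lemma succ_div_mod {L x : ℕ} (hL : 0 < L) (h : ¬ L ∣ x + 1) :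
    (x + 1) / L = x / L ∧ (x + 1) % L = x % L + 1 := by
  have h1 : (x + 1) % L ≠ 0 := fun h2 => h (Nat.dvd_of_mod_eq_zero h2)
  have h2 := Nat.div_add_mod x L
  have h3 := Nat.mod_lt x hL
  have h4 : x % L + 1 < L := by
    by_contra h5
    have h6 : x % L + 1 = L := by omega
    apply h
    have h7 : x + 1 = L * (x / L + 1) := by
      rw [mul_add, mul_one]
      omega
    rw [h7]
    exact dvd_mul_right _ _
  have h5 : x + 1 = L * (x / L) + (x % L + 1) := by omega
  constructor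
  · conv_lhs => rw [h5]
    rw [Nat.mul_add_div hL, Nat.div_eq_of_lt h4, add_zero]
  · conv_lhs => rw [h5]
    rw [Nat.mul_add_mod, Nat.mod_eq_of_lt h4]

/-- walks stay in their block and their parity is determined -/
lemma reach_blocks {L n : ℕ} (hL : 0 < L) {v : Fin n} : ∀ (j : ℕ) (u : Fin n), Reach (blocks L n) v j u →
    (u : ℕ) / L = v / L ∧ Even ((u : ℕ) + v + j) ∧ (u : ℕ) ≤ v + j ∧ (v : ℕ) ≤ u + j := by
  intro j
  induction j with
  | zero =>
    intro u h
    have h' : u = v := h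
    subst h'
    exact ⟨rfl, ⟨u, by omega⟩, by omega, by omega⟩
  | succ j ih =>
    intro u h
    obtain ⟨x, hx, hxu⟩ := h
    obtain ⟨h1, ⟨c, h2⟩, h3, h4⟩ := ih x hx
    rcases hxu with ⟨h5, h6⟩ | ⟨h5, h6⟩
    · rw [← h5] at h6
      have h7 := (succ_div_mod hL h6).1
      rw [h5] at h7
      exact ⟨by omega, ⟨c + 1, by omega⟩, by omega, by omega⟩
    · rw [← h5] at h6
      have h7 := (succ_div_mod hL h6).1
      rw [h5] at h7
      exact ⟨by omega, ⟨c, by omega⟩, by omega, by omega⟩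

/-- monotone walks towards the first vertex of the block -/
lemma reach_down {L n : ℕ} {v : Fin n} : ∀ (j : ℕ), j ≤ (v : ℕ) % L → ∀ u : Fin n, (u : ℕ) + j = v →
    Reach (blocks L n) v j u := by
  intro j
  induction j with
  | zero =>
    intro _ u hu
    exact Fin.ext (by omega)
  | succ j ih =>
    intro hj u hu
    have hx : (u : ℕ) + 1 < n := by
      have := v.2
      omega
    refine ⟨⟨u + 1, hx⟩, ih (by omega) _ (by simp; omega), Or.inr ⟨rfl, ?_⟩⟩
    intro hd
    -- `v - j` is divisible by `L` although `j < v % L`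
    have h1 : ((v : ℕ) - j) % L = v % L - j := by
      have h2 := Nat.div_add_mod (v : ℕ) L
      have h3 : (v : ℕ) - j = L * (v / L) + (v % L - j) := by omega
      rw [h3, Nat.mul_add_mod]
      rcases Nat.eq_zero_or_pos L with h0 | h0
      · subst h0
        simp
      · exact Nat.mod_eq_of_lt (by have := Nat.mod_lt (v : ℕ) h0; omega)
    have h2 : (v : ℕ) - j = u + 1 := by omega
    rw [h2] at h1
    have h3 : ((u : ℕ) + 1) % L = 0 := Nat.mod_eq_zero_of_dvd hd
    omega

lemma evenEnd_iff {k n t : ℕ} (hn : (2 * k + 1) ∣ n) (ht : 2 * k < t) (v : Fin n) :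
    EvenEnd t (blocks (2 * k + 1) n) v ↔ Even ((v : ℕ) % (2 * k + 1)) := by
  have hL : 0 < 2 * k + 1 := by omega
  have hvd := Nat.div_add_mod (v : ℕ) (2 * k + 1)
  have hvm := Nat.mod_lt (v : ℕ) hL
  constructor
  · rintro ⟨j, u, hj, ⟨c, hc⟩, hr, hu⟩
    obtain ⟨h1, ⟨c', h2⟩, h3, h4⟩ := reach_blocks hL j u hr
    have hud := Nat.div_add_mod (u : ℕ) (2 * k + 1)
    have hum := Nat.mod_lt (u : ℕ) hL
    rw [h1] at hud
    -- `u` is an end vertex of its path
    have hend : (u : ℕ) % (2 * k + 1) = 0 ∨ (u : ℕ) % (2 * k + 1) = 2 * k := by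
      by_contra hcon
      have h5 : 0 < (u : ℕ) % (2 * k + 1) ∧ (u : ℕ) % (2 * k + 1) < 2 * k := by omega
      have h6 : 0 < (u : ℕ) := by
        rcases Nat.eq_zero_or_pos (u : ℕ) with h0 | h0
        · rw [h0] at h5
          simp at h5
        · exact h0
      have h7 : (u : ℕ) + 1 < n := by
        obtain ⟨q, hq⟩ := hn
        by_contra h8
        have h9 : (u : ℕ) + 1 = n := by have := u.2; omega
        have h10 : ((u : ℕ) + 1) % (2 * k + 1) = 0 := by
          rw [h9, hq]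
          exact Nat.mul_mod_right _ _
        have h11 : (u : ℕ) + 1 = (2 * k + 1) * (u / (2 * k + 1)) + ((u : ℕ) % (2 * k + 1) + 1) := by
          have := Nat.div_add_mod (u : ℕ) (2 * k + 1)
          omega
        rw [h11, Nat.mul_add_mod, Nat.mod_eq_of_lt (by omega)] at h10
        omega
      have ha : (blocks (2 * k + 1) n).Adj u ⟨u - 1, by have := u.2; omega⟩ := by
        refine Or.inr ⟨by simp; omega, ?_⟩
        intro hd
        have := Nat.mod_eq_zero_of_dvd hd
        omega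
      have hb : (blocks (2 * k + 1) n).Adj u ⟨u + 1, h7⟩ := by
        refine Or.inl ⟨rfl, ?_⟩
        intro hd
        have h10 := Nat.mod_eq_zero_of_dvd hd
        have h11 : (u : ℕ) + 1 = (2 * k + 1) * (u / (2 * k + 1)) + ((u : ℕ) % (2 * k + 1) + 1) := by
          have := Nat.div_add_mod (u : ℕ) (2 * k + 1)
          omega
        simp only at h10
        rw [h11, Nat.mul_add_mod, Nat.mod_eq_of_lt (by omega)] at h10
        omega
      have := hu _ _ ha hb
      rw [Fin.mk.injEq] at this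
      omega
    rw [Nat.even_iff]
    omega
  · intro hev
    refine ⟨(v : ℕ) % (2 * k + 1), ⟨v - (v : ℕ) % (2 * k + 1), by have := v.2; omega⟩, by omega, hev,
      reach_down _ le_rfl _ (by simp; omega), ?_⟩
    intro x y hx hy
    have h0 : (2 * k + 1) ∣ (v : ℕ) - (v : ℕ) % (2 * k + 1) := Nat.dvd_sub_mod _
    rcases hx with ⟨h1, _⟩ | ⟨_, h1⟩
    · rcases hy with ⟨h2, _⟩ | ⟨_, h2⟩
      · exact Fin.ext (by simp only at h1 h2; omega)
      · exact absurd h0 h2
    · exact absurd h0 h1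

lemma reach_map {n m : ℕ} {G : SimpleGraph (Fin n)} {H : SimpleGraph (Fin m)} {e : Fin n → Fin m}
    (he : ∀ x y, G.Adj x y → H.Adj (e x) (e y)) {v : Fin n} : ∀ (j : ℕ) (u : Fin n), Reach G v j u →
    Reach H (e v) j (e u) := by
  intro j
  induction j with
  | zero =>
    intro u h
    have h' : u = v := h
    rw [h']
    exact rfl
  | succ j ih =>
    intro u h
    obtain ⟨x, hx, hxu⟩ := h
    exact ⟨e x, ih x hx, he _ _ hxu⟩

lemma evenEnd_map {n : ℕ} {G H : SimpleGraph (Fin n)} {σ : Equiv.Perm (Fin n)}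
    (hσ : ∀ x y, G.Adj (σ x) (σ y) ↔ H.Adj x y) (t : ℕ) (v : Fin n) :
    EvenEnd t G (σ v) ↔ EvenEnd t H v := by
  have h2 : ∀ x y, H.Adj (σ.symm x) (σ.symm y) ↔ G.Adj x y := by
    intro x y
    rw [← hσ, Equiv.apply_symm_apply, Equiv.apply_symm_apply]
  constructor
  · rintro ⟨j, u, hj, hev, hr, hu⟩
    have h1 := reach_map (fun x y h => (h2 x y).2 h) j u hr
    rw [Equiv.symm_apply_apply] at h1
    refine ⟨j, σ.symm u, hj, hev, h1, fun x y hx hy => ?_⟩
    apply σ.injective
    apply hu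
    · rw [← h2, Equiv.symm_apply_apply]; exact hx
    · rw [← h2, Equiv.symm_apply_apply]; exact hy
  · rintro ⟨j, u, hj, hev, hr, hu⟩
    refine ⟨j, σ u, hj, hev, reach_map (fun x y h => (hσ x y).2 h) j u hr, fun x y hx hy => ?_⟩
    apply σ.symm.injective
    apply hu
    · rw [← hσ, Equiv.apply_symm_apply]; exact hx
    · rw [← hσ, Equiv.apply_symm_apply]; exact hy

/-- the complexity of the algorithm -/
def t₀ (n : ℕ) : ℕ := 2 * Nat.log 2 n + 2

lemma lt_t₀ (k : ℕ) : 2 * k < t₀ ((2 * k + 1) * 2 ^ k) := by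
  have h1 : k ≤ Nat.log 2 ((2 * k + 1) * 2 ^ k) := by
    apply Nat.le_log_of_pow_le (by norm_num)
    exact Nat.le_mul_of_pos_left _ (by omega)
  unfold t₀
  omega

lemma alg_solves {L : Type} {n : ℕ} {G : SimpleGraph (Fin n)} (hG : G ∈ cls n) (a : Fin n → L) :
    colouring.Solution G ((alg L t₀).out n G a) := by
  classical
  obtain ⟨k, hn, σ, hσ⟩ := hG
  have hdvd : (2 * k + 1) ∣ n := ⟨2 ^ k, hn⟩
  have ht : 2 * k < t₀ n := by
    rw [hn]
    exact lt_t₀ k
  have hL : 0 < 2 * k + 1 := by omega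
  have key : ∀ x y : Fin n, (x : ℕ) + 1 = y → ¬ (2 * k + 1) ∣ (y : ℕ) →
      ¬ (EvenEnd (t₀ n) G (σ x) ↔ EvenEnd (t₀ n) G (σ y)) := by
    intro x y h1 h2
    rw [evenEnd_map hσ, evenEnd_map hσ, evenEnd_iff hdvd ht, evenEnd_iff hdvd ht, ← h1]
    rw [← h1] at h2
    rw [(succ_div_mod hL h2).2, Nat.even_add_one]
    tauto
  intro v u hvu
  obtain ⟨v', rfl⟩ := σ.surjective v
  obtain ⟨u', rfl⟩ := σ.surjective u
  rw [hσ] at hvu
  unfold alg
  rw [Ne, decide_eq_decide]
  rcases hvu with ⟨h1, h2⟩ | ⟨h1, h2⟩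
  · intro h
    exact key v' u' h1 h2 h.symm
  · exact key u' v' h1 h2

lemma growth : Subexponential cls := by
  refine ⟨2, fun r => 2 * r + 1, ?_, ?_⟩
  · have h1 := Real.tendsto_pow_log_div_mul_add_atTop (1 / 2) (-1 / 2) 1 (by norm_num)
    have h2 : Tendsto (fun r : ℕ => (2 : ℝ) * r + 1) atTop atTop :=
      tendsto_atTop_add_const_right _ _ (tendsto_natCast_atTop_atTop.const_mul_atTop (by norm_num))
    refine (h1.comp h2).congr fun r => ?_
    simp only [Function.comp_apply, pow_one]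
    push_cast
    congr 1
    ring
  · rintro n G ⟨k, hn, σ, hσ⟩ v
    obtain ⟨v', rfl⟩ := σ.surjective v
    have hbound : ∀ (S : Set (Fin n)) (T : Finset ℕ), (∀ u, σ u ∈ S → (u : ℕ) ∈ T) → S.ncard ≤ T.card := by
      intro S T h
      have h1 : S.ncard = ((fun x => ((σ.symm x : Fin n) : ℕ)) '' S).ncard := by
        rw [Set.ncard_image_of_injective]
        intro x y hxy
        exact σ.symm.injective (Fin.ext hxy)
      rw [h1, ← Set.ncard_coe_finset T]
      apply Set.ncard_le_ncard _ (Finset.finite_toSet T)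
      rintro _ ⟨x, hx, rfl⟩
      exact h _ (by rwa [Equiv.apply_symm_apply])
    constructor
    · refine (hbound _ {(v' : ℕ) - 1, (v' : ℕ) + 1} ?_).trans (Finset.card_le_two)
      intro u hu
      have hu' := (hσ v' u).1 hu
      rw [Finset.mem_insert, Finset.mem_singleton]
      rcases hu' with ⟨h1, _⟩ | ⟨h1, _⟩ <;> omega
    · intro r
      refine (hbound _ (Finset.Icc ((v' : ℕ) - r) (v' + r)) ?_).trans ?_
      · rintro u ⟨j, hj, hu⟩
        have h2 : ∀ x y, G.Adj x y → (blocks (2 * k + 1) n).Adj (σ.symm x) (σ.symm y) := by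
          intro x y hxy
          rwa [← hσ, Equiv.apply_symm_apply, Equiv.apply_symm_apply]
        have h3 := reach_map h2 j _ hu
        rw [Equiv.symm_apply_apply, Equiv.symm_apply_apply] at h3
        obtain ⟨-, -, h4, h5⟩ := reach_blocks (by omega) j u h3
        rw [Finset.mem_Icc]
        omega
      · rw [Nat.card_Icc]
        show _ ≤ 2 * r + 1
        omega

/-! ### The lower bound -/

lemma adj_block {k n : ℕ} {x y : Fin n} (hx : (x : ℕ) ≤ 2 * k) (hy : (y : ℕ) ≤ 2 * k) :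
    (blocks (2 * k + 1) n).Adj x y ↔ (x : ℕ) + 1 = y ∨ (y : ℕ) + 1 = x := by
  have h : ∀ z : ℕ, 0 < z → z ≤ 2 * k → ¬ (2 * k + 1) ∣ z := by
    intro z h1 h2 h3
    have := Nat.le_of_dvd h1 h3
    omega
  constructor
  · rintro (⟨h1, _⟩ | ⟨h1, _⟩)
    · exact Or.inl h1
    · exact Or.inr h1
  · rintro (h1 | h1)
    · exact Or.inl ⟨h1, h _ (by omega) hy⟩
    · exact Or.inr ⟨h1, h _ (by omega) hx⟩

lemma reach_up {k n : ℕ} {v : Fin n} : ∀ (j : ℕ) (u : Fin n), (v : ℕ) + j = u → (u : ℕ) ≤ 2 * k →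
    Reach (blocks (2 * k + 1) n) v j u := by
  intro j
  induction j with
  | zero =>
    intro u hu _
    exact Fin.ext (by omega)
  | succ j ih =>
    intro u hu hk
    have hx : (u : ℕ) - 1 < n := by have := u.2; omega
    refine ⟨⟨u - 1, hx⟩, ih _ (by simp; omega) (by simp; omega), ?_⟩
    rw [adj_block (by simp; omega) hk]
    left
    simp
    omega

lemma ball_eq {k n r : ℕ} {v : Fin n} (h1 : r ≤ v) (h2 : (v : ℕ) + r ≤ 2 * k) :
    ball (blocks (2 * k + 1) n) v r = {u : Fin n | (v : ℕ) ≤ u + r ∧ (u : ℕ) ≤ v + r} := by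
  ext u
  constructor
  · rintro ⟨j, hj, hu⟩
    obtain ⟨-, -, h4, h5⟩ := reach_blocks (by omega) j u hu
    exact ⟨by omega, by omega⟩
  · rintro ⟨h3, h4⟩
    rcases Nat.lt_or_ge (v : ℕ) u with h | h
    · exact ⟨u - v, by omega, reach_up _ _ (by omega) (by omega)⟩
    · refine ⟨v - u, by omega, reach_down _ ?_ _ (by omega)⟩
      rw [Nat.mod_eq_of_lt (by omega)]
      omega

lemma alternate {k n : ℕ} (hn : 2 * k < n) {a : Fin n → Bool}
    (ha : colouring.Solution (blocks (2 * k + 1) n) a) :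
    ∀ (j i : ℕ) (h : i + j ≤ 2 * k), (a ⟨i + j, by omega⟩ = a ⟨i, by omega⟩ ↔ Even j) := by
  intro j
  induction j with
  | zero => intro i h; simp
  | succ j ih =>
    intro i h
    have h1 := ih i (by omega)
    have h2 : a ⟨i + (j + 1), by omega⟩ ≠ a ⟨i + j, by omega⟩ := by
      apply ha ⟨i + j, by omega⟩ ⟨i + (j + 1), by omega⟩
      rw [adj_block (by simp; omega) (by simp; omega)]
      left
      simp
      omega
    rw [Nat.even_add_one, ← h1]
    generalize a ⟨i + (j + 1), by omega⟩ = p at h2 ⊢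
    generalize a ⟨i + j, by omega⟩ = q at h1 h2 ⊢
    generalize a ⟨i, by omega⟩ = s at h1 ⊢
    revert h2
    cases p <;> cases q <;> cases s <;> simp

lemma lower {c : ℕ} (hc : 1 ≤ c) {t : ℕ → ℕ} (h : SolvesDet cls colouring c t) (k : ℕ) :
    k ≤ 2 * t ((2 * k + 1) * 2 ^ k) := by
  by_contra hcon
  obtain ⟨A, hA⟩ := h
  obtain ⟨n, hn⟩ : ∃ n, n = (2 * k + 1) * 2 ^ k := ⟨_, rfl⟩
  rw [← hn] at hcon
  obtain ⟨T, hT⟩ : ∃ T, T = t n := ⟨_, rfl⟩
  rw [← hT] at hcon
  have hkn : 2 * k < n := by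
    rw [hn]
    have : 0 < 2 ^ k := by positivity
    nlinarith
  have hnc : n ≤ n ^ c := Nat.le_self_pow (by omega) n
  obtain ⟨B, hB⟩ : ∃ B, B = blocks (2 * k + 1) n := ⟨_, rfl⟩
  have hBc : B ∈ cls n := ⟨k, hn, 1, fun x y => by rw [hB]; rfl⟩
  obtain ⟨id1, hid1⟩ : ∃ id1 : Fin n → ℕ, id1 = fun v : Fin n => (v : ℕ) + 1 := ⟨_, rfl⟩
  obtain ⟨id2, hid2⟩ : ∃ id2 : Fin n → ℕ, id2 = fun v : Fin n => if (v : ℕ) = 0 then 2 * T + 2 else
    if (v : ℕ) ≤ 2 * T + 1 then (v : ℕ) else (v : ℕ) + 1 := ⟨_, rfl⟩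
  have s1 := hA n B hBc id1 (by
    intro x y hxy
    simp only [hid1] at hxy
    exact Fin.ext (by omega)) (fun v => by
      simp only [hid1]
      have := v.2
      omega)
  have s2 := hA n B hBc id2 (by
    intro x y hxy
    simp only [hid2] at hxy
    apply Fin.ext
    split_ifs at hxy <;> omega) (fun v => by
      simp only [hid2]
      have := v.2
      split_ifs <;> omega)
  -- the first pair of balls
  have b1 : SameBall B id1 ⟨T, by omega⟩ B id2 ⟨T + 1, by omega⟩ T := by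
    refine ⟨fun x => if h : (x : ℕ) + 1 < n then ⟨x + 1, h⟩ else x, ?_, ?_, ?_, ?_⟩
    · rw [hB, ball_eq (by simp) (by simp; omega), ball_eq (by simp) (by simp; omega)]
      refine ⟨?_, ?_, ?_⟩
      · rintro x ⟨h1, h2⟩
        simp only at h1 h2
        have h3 : (x : ℕ) + 1 < n := by omega
        simp only [dif_pos h3]
        constructor
        · show T + 1 ≤ (x : ℕ) + 1 + T
          omega
        · show (x : ℕ) + 1 ≤ T + 1 + T
          omega
      · rintro x ⟨h1, h2⟩ y ⟨h3, h4⟩ hxy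
        simp only at h1 h2 h3 h4 hxy
        rw [dif_pos (by omega), dif_pos (by omega), Fin.mk.injEq] at hxy
        exact Fin.ext (by omega)
      · rintro x ⟨h1, h2⟩
        simp only at h1 h2
        refine ⟨⟨x - 1, by have := x.2; omega⟩, ⟨?_, ?_⟩, ?_⟩
        · show T ≤ (x : ℕ) - 1 + T
          omega
        · show (x : ℕ) - 1 ≤ T + T
          omega
        · have h3 : (x : ℕ) - 1 + 1 < n := by have := x.2; omega
          simp only [dif_pos h3]
          exact Fin.ext (by simp only; omega)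
    · have h3 : T + 1 < n := by omega
      simp only [dif_pos h3]
    · intro x hx y hy
      rw [hB, ball_eq (by simp) (by simp; omega)] at hx hy
      obtain ⟨h1, h2⟩ := hx
      obtain ⟨h3, h4⟩ := hy
      simp only at h1 h2 h3 h4
      have h5 : (x : ℕ) + 1 < n := by omega
      have h6 : (y : ℕ) + 1 < n := by omega
      simp only [dif_pos h5, dif_pos h6]
      rw [hB, adj_block (by omega) (by omega), adj_block (by simp; omega) (by simp; omega)]
      simp only
      omega
    · intro x hx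
      rw [hB, ball_eq (by simp) (by simp; omega)] at hx
      obtain ⟨h1, h2⟩ := hx
      simp only at h1 h2
      have h5 : (x : ℕ) + 1 < n := by omega
      simp only [dif_pos h5, hid1, hid2]
      rw [if_neg (by omega), if_pos (by omega)]
  -- the second pair of balls
  have b2 : SameBall B id1 ⟨3 * T + 2, by omega⟩ B id2 ⟨3 * T + 2, by omega⟩ T := by
    refine ⟨fun x => x, Set.bijOn_id _, rfl, fun x _ y _ => Iff.rfl, ?_⟩
    intro x hx
    rw [hB, ball_eq (by simp; omega) (by simp; omega)] at hx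
    obtain ⟨h1, h2⟩ := hx
    simp only at h1 h2
    simp only [hid1, hid2]
    rw [if_neg (by omega), if_neg (by omega)]
  have e1 := A.isLocal n B B id1 id2 ⟨T, by omega⟩ ⟨T + 1, by omega⟩ (by rw [← hT]; exact b1)
  have e2 := A.isLocal n B B id1 id2 ⟨3 * T + 2, by omega⟩ ⟨3 * T + 2, by omega⟩ (by rw [← hT]; exact b2)
  rw [hB] at s1 s2 e1 e2
  have a1 := alternate hkn s1 (2 * T + 2) T (by omega)
  have a2 := alternate hkn s2 (2 * T + 1) (T + 1) (by omega)
  have p1 : (⟨T + (2 * T + 2), by omega⟩ : Fin n) = ⟨3 * T + 2, by omega⟩ := Fin.ext (by simp only; omega)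
  have p2 : (⟨T + 1 + (2 * T + 1), by omega⟩ : Fin n) = ⟨3 * T + 2, by omega⟩ := Fin.ext (by simp only; omega)
  rw [p1] at a1
  rw [p2, ← e1, ← e2] at a2
  have h1 := a1.2 ⟨T + 1, by omega⟩
  have h2 := a2.1 h1
  rw [Nat.even_iff] at h2
  omega

lemma logStar_le (n : ℕ) : logStar n ≤ Nat.log 2 n := by
  induction n using Nat.strong_induction_on with
  | _ n ih =>
    rw [logStar]
    split_ifs with h
    · omega
    · have h1 := ih (Nat.log 2 n) (Nat.log_lt_self 2 (by omega))
      have h2 : 0 < Nat.log 2 n := Nat.log_pos (by norm_num) (by omega)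
      have h3 := Nat.log_lt_self 2 h2.ne'
      omega

lemma logStar_le_log_log {n : ℕ} (hn : 2 ≤ n) : logStar n ≤ 1 + Nat.log 2 (Nat.log 2 n) := by
  rw [logStar, dif_neg (by omega)]
  have := logStar_le (Nat.log 2 n)
  omega

lemma not_logStar {c : ℕ} (hc : 1 ≤ c) : ¬ ∃ t : ℕ → ℕ,
    (fun n => (t n : ℝ)) =O[atTop] (fun n => (logStar n : ℝ)) ∧ SolvesDet cls colouring c t := by
  rintro ⟨t, ht, h⟩
  obtain ⟨C, hC, hb⟩ := ht.exists_pos
  rw [isBigOWith_iff] at hb
  obtain ⟨s, hs⟩ : ∃ s : ℕ → ℕ, s = fun j => (2 * 2 ^ j + 1) * 2 ^ 2 ^ j := ⟨_, rfl⟩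
  have hst : Tendsto s atTop atTop := by
    apply tendsto_atTop_mono _ tendsto_id
    intro j
    rw [hs]
    have h1 : j < 2 ^ j := Nat.lt_two_pow_self
    have h2 : 1 ≤ 2 ^ 2 ^ j := Nat.one_le_two_pow
    simp only [id]
    nlinarith
  have h1 := hst.eventually hb
  have h2 : ∀ᶠ j : ℕ in atTop, (2 : ℝ) ^ j ≤ 2 * C * (j + 3) := by
    filter_upwards [h1] with j hj
    have h3 := lower hc h (2 ^ j)
    have h4 : logStar (s j) ≤ j + 3 := by
      have h5 : 2 ≤ s j := by
        rw [hs]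
        have h6 : 1 ≤ 2 ^ j := Nat.one_le_two_pow
        have h7 : 1 ≤ 2 ^ 2 ^ j := Nat.one_le_two_pow
        simp only
        nlinarith
      refine (logStar_le_log_log h5).trans ?_
      have h6 : Nat.log 2 (s j) ≤ 3 * 2 ^ j := by
        have h7 : s j ≤ 2 ^ (3 * 2 ^ j) := by
          rw [hs]
          simp only
          have h8 : 2 * 2 ^ j + 1 ≤ 2 ^ (2 * 2 ^ j) := by
            have : ∀ m : ℕ, 2 * m + 1 ≤ 2 ^ (2 * m) := by
              intro m
              have := Nat.lt_two_pow_self (n := 2 * m)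
              omega
            exact this _
          calc (2 * 2 ^ j + 1) * 2 ^ 2 ^ j ≤ 2 ^ (2 * 2 ^ j) * 2 ^ 2 ^ j := Nat.mul_le_mul_right _ h8
            _ = 2 ^ (3 * 2 ^ j) := by rw [← pow_add]; congr 1; ring
        calc Nat.log 2 (s j) ≤ Nat.log 2 (2 ^ (3 * 2 ^ j)) := Nat.log_mono_right h7
          _ = 3 * 2 ^ j := Nat.log_pow (by norm_num) _
      have h8 : Nat.log 2 (Nat.log 2 (s j)) ≤ j + 2 := by
        calc Nat.log 2 (Nat.log 2 (s j)) ≤ Nat.log 2 (2 ^ (j + 2)) := by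
              apply Nat.log_mono_right
              refine h6.trans ?_
              rw [pow_add]
              omega
          _ = j + 2 := Nat.log_pow (by norm_num) _
      omega
    have h5 : (2 : ℝ) ^ j ≤ 2 * t (s j) := by
      rw [hs]
      exact_mod_cast h3
    rw [Real.norm_of_nonneg (Nat.cast_nonneg _), Real.norm_of_nonneg (Nat.cast_nonneg _)] at hj
    have h6 : ((logStar (s j) : ℕ) : ℝ) ≤ j + 3 := by exact_mod_cast h4
    have h7 : C * (logStar (s j) : ℝ) ≤ C * (j + 3) := mul_le_mul_of_nonneg_left h6 hC.le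
    linarith
  have h3 : Tendsto (fun j : ℕ => 2 * C * ((j : ℝ) + 3) / 2 ^ j) atTop (nhds 0) := by
    have e1 := tendsto_pow_const_div_const_pow_of_one_lt 1 (by norm_num : (1 : ℝ) < 2)
    have e2 := tendsto_pow_const_div_const_pow_of_one_lt 0 (by norm_num : (1 : ℝ) < 2)
    have e3 := (e1.const_mul (2 * C)).add (e2.const_mul (6 * C))
    simp only [mul_zero, add_zero] at e3
    refine e3.congr fun j => ?_
    field_simp
    ring
  have h4 := h3.eventually (gt_mem_nhds (by norm_num : (0 : ℝ) < 1))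
  obtain ⟨j, h5, h6⟩ := (h2.and h4).exists
  rw [div_lt_one (by positivity)] at h6
  linarith

lemma t₀_isBigO : (fun n => (t₀ n : ℝ)) =O[atTop] (fun n : ℕ => Real.log n) := by
  apply IsBigO.of_bound (4 / Real.log 2)
  filter_upwards [eventually_ge_atTop 2] with n hn
  have hlog2 : 0 < Real.log 2 := Real.log_pos (by norm_num)
  have h1 : Real.log 2 ≤ Real.log n := Real.log_le_log (by norm_num) (by exact_mod_cast hn)
  rw [Real.norm_of_nonneg (Nat.cast_nonneg _), Real.norm_of_nonneg (by linarith)]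
  have h2 : (Nat.log 2 n : ℝ) * Real.log 2 ≤ Real.log n := by
    rw [← Real.log_pow]
    apply Real.log_le_log (by positivity)
    exact_mod_cast Nat.pow_log_le_self 2 (by omega)
  unfold t₀
  push_cast
  rw [div_mul_eq_mul_div, le_div_iff₀ hlog2]
  nlinarith

/-- **The negated form of Q1.** -/
theorem result : Subexponential cls ∧
    (∃ t : ℕ → ℕ, (fun n => (t n : ℝ)) =O[atTop] (fun n : ℕ => Real.log n) ∧
      (∀ d : ℝ, SolvesRand cls colouring d t) ∧ ∀ c : ℕ, SolvesDet cls colouring c t) ∧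
    (∀ c : ℕ, 1 ≤ c → ∀ t : ℕ → ℕ, SolvesDet cls colouring c t →
      ∀ k : ℕ, k ≤ 2 * t ((2 * k + 1) * 2 ^ k)) ∧
    ∀ c : ℕ, 1 ≤ c → ¬ ∃ t : ℕ → ℕ, (fun n => (t n : ℝ)) =O[atTop] (fun n => (logStar n : ℝ)) ∧
      SolvesDet cls colouring c t := by
  refine ⟨growth, ⟨t₀, t₀_isBigO, fun d => ?_, fun c => ?_⟩, fun c hc t h k => lower hc h k,
    fun c hc => not_logStar hc⟩
  · refine ⟨alg (ℕ → Bool) t₀, fun n G hG => ?_⟩
    have h1 : {ω | colouring.Solution G ((alg (ℕ → Bool) t₀).out n G ω)} = Set.univ :=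
      Set.eq_univ_of_forall fun ω => alg_solves hG ω
    rw [h1]
    have : IsProbabilityMeasure (coins n) := by
      unfold coins
      infer_instance
    rw [probReal_univ]
    have h2 : 0 ≤ (n : ℝ) ^ (-d) := by positivity
    linarith
  · exact ⟨alg ℕ t₀, fun n G hG id _ _ => alg_solves hG id⟩

end Pool.Agent.Results.MP_e442af_lc.LogarithmicPaths
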